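import Pool.Agent.Helper22.Pin.C1
import Pool.Agent.Helper5.Pin.A

/-!
# PN-C2: Laman's theorem (sparse sets have independent rows for some framework)
-/

namespace Pool.Agent.Helper36.Pin

open Finset Module

variable {V : Type} [Fintype V] [DecidableEq V]

/-- `δ_u - δ_v` tensor `e_i` -/
private noncomputable def c2d (i : Fin 2) (u v : V) : V × Fin 2 → ℚ :=
  Pi.single (u, i) 1 - Pi.single (v, i) 1

private lemma c2d_self (i : Fin 2) (u : V) : c2d i u u = 0 := sub_self _

private lemma c2d_add (i : Fin 2) (u v w : V) : c2d i u v + c2d i v w = c2d i u w := by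
  unfold c2d; abel

private lemma c2d_neg (i : Fin 2) (u v : V) : - c2d i u v = c2d i v u := by
  unfold c2d; abel

/-- the plane of the edge `e` -/
private noncomputable def c2A (e : Sym2 V) : Submodule ℚ (V × Fin 2 → ℚ) :=
  Submodule.span ℚ {c2d 0 (Quot.out e).1 (Quot.out e).2, c2d 1 (Quot.out e).1 (Quot.out e).2}

private lemma c2A_mem (e : Sym2 V) (i : Fin 2) : c2d i (Quot.out e).1 (Quot.out e).2 ∈ c2A e := by
  apply Submodule.subset_span
  fin_cases i
  · exact Or.inl rfl
  · exact Or.inr rfl

private lemma out_mk (e : Sym2 V) : s((Quot.out e).1, (Quot.out e).2) = e := Quot.out_eq e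

/-- the dimension count -/
private lemma c2_count (J : Finset (Sym2 V)) (hJ : Sparse J) (hne : J.Nonempty)
    (U : Submodule ℚ (V × Fin 2 → ℚ)) (hU : ∀ e ∈ J, c2A e ≤ U) : J.card + 1 ≤ finrank ℚ U := by
  classical
  -- the classes
  let S : Setoid V :=
    { r := fun u v => ∀ i, c2d i u v ∈ U
      iseqv :=
        { refl := fun u i => by rw [c2d_self]; exact U.zero_mem
          symm := fun {u v} h i => by rw [← c2d_neg]; exact U.neg_mem (h i)
          trans := fun {u v w} h1 h2 i => by rw [← c2d_add i u v w]; exact U.add_mem (h1 i) (h2 i) } }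
  let r : V → V := fun v => (Quotient.mk S v).out
  have hr : ∀ v i, c2d i v (r v) ∈ U := fun v =>
    Setoid.symm' S (Quotient.exact (s := S) (Quotient.out_eq (Quotient.mk S v)))
  have hrr : ∀ u v, (∀ i, c2d i u v ∈ U) → r u = r v := by
    intro u v h
    have : Quotient.mk S u = Quotient.mk S v := Quotient.sound (s := S) h
    simp only [r, this]
  have hri : ∀ v, r (r v) = r v := fun v => (hrr v (r v) (hr v)).symm
  set N : Finset V := Finset.univ.filter (fun v => r v ≠ v) with hN
  -- independence
  have hli : LinearIndependent ℚ (fun x : N × Fin 2 =>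
      (⟨c2d x.2 x.1.1 (r x.1.1), hr x.1.1 x.2⟩ : U)) := by
    let R : (V × Fin 2 → ℚ) →ₗ[ℚ] (N × Fin 2 → ℚ) :=
      LinearMap.funLeft ℚ ℚ (fun u : N × Fin 2 => ((u.1 : V), u.2))
    apply LinearIndependent.of_comp (R ∘ₗ U.subtype)
    have : (fun x : N × Fin 2 => (Pi.single x 1 : N × Fin 2 → ℚ)) =
        (R ∘ₗ U.subtype) ∘ (fun x : N × Fin 2 =>
      (⟨c2d x.2 x.1.1 (r x.1.1), hr x.1.1 x.2⟩ : U)) := by
      funext ⟨⟨v, hv⟩, i⟩ ⟨⟨w, hw⟩, j⟩
      have hw' : r w ≠ w := (Finset.mem_filter.1 hw).2
      have hne : w ≠ r v := fun h => hw' (by rw [h, hri])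
      simp only [Function.comp_apply, LinearMap.comp_apply, Submodule.subtype_apply, R,
        LinearMap.funLeft_apply, c2d, Pi.sub_apply]
      rw [Pi.single_apply, Pi.single_apply, Pi.single_apply]
      simp only [Prod.mk.injEq, Subtype.mk.injEq, hne, false_and, if_false, sub_zero]
    rw [← this]
    have hb := (Pi.basisFun ℚ (N × Fin 2)).linearIndependent
    convert hb using 1
    funext x
    simp
  have h1 := hli.fintype_card_le_finrank
  simp only [Fintype.card_prod, Fintype.card_coe, Fintype.card_fin] at h1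
  -- counting edges
  let f : Sym2 V → V := fun e => r (Quot.out e).1
  have hf : ∀ e ∈ J, r (Quot.out e).2 = f e := by
    intro e he
    symm
    apply hrr
    intro i
    exact hU e he (c2A_mem e i)
  set t : Finset V := J.image f with ht
  have htne : t.Nonempty := hne.image f
  let C : V → Finset V := fun x => Finset.univ.filter (fun v => r v = x)
  have hcard : J.card = ∑ x ∈ t, (J.filter (fun e => f e = x)).card :=
    Finset.card_eq_sum_card_fiberwise (fun e he => Finset.mem_image_of_mem f he)
  have hC2 : ∀ x ∈ t, 2 ≤ (C x).card := by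
    intro x hx
    obtain ⟨e, he, rfl⟩ := Finset.mem_image.1 hx
    have hne' : (Quot.out e).1 ≠ (Quot.out e).2 := by
      intro h
      apply hJ.1 e he
      rw [← out_mk e]
      exact h
    have : ({(Quot.out e).1, (Quot.out e).2} : Finset V) ⊆ C (f e) := by
      intro v hv
      simp only [Finset.mem_insert, Finset.mem_singleton] at hv
      simp only [C, Finset.mem_filter, Finset.mem_univ, true_and]
      rcases hv with rfl | rfl
      · rfl
      · exact hf e he
    calc 2 = ({(Quot.out e).1, (Quot.out e).2} : Finset V).card := (Finset.card_pair hne').symm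
      _ ≤ _ := Finset.card_le_card this
  have hbound : ∀ x ∈ t, (J.filter (fun e => f e = x)).card + 3 ≤ 2 * (C x).card := by
    intro x hx
    have h2 := hJ.2 (C x) (hC2 x hx)
    have h3 : J.filter (fun e => f e = x) ⊆ J ∩ (C x).sym2 := by
      intro e he
      rw [Finset.mem_filter] at he
      rw [Finset.mem_inter]
      refine ⟨he.1, ?_⟩
      rw [← out_mk e, mk_mem_sym2]
      simp only [C, Finset.mem_filter, Finset.mem_univ, true_and]
      exact ⟨he.2, (hf e he.1).trans he.2⟩
    have := Finset.card_le_card h3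
    omega
  have hsum1 : J.card + 3 * t.card ≤ 2 * ∑ x ∈ t, (C x).card := by
    rw [hcard, Finset.mul_sum, mul_comm 3, ← smul_eq_mul, ← Finset.sum_const,
      ← Finset.sum_add_distrib]
    exact Finset.sum_le_sum hbound
  have hmemt : ∀ x ∈ t, r x = x := by
    intro x hx
    obtain ⟨e, he, rfl⟩ := Finset.mem_image.1 hx
    exact hri _
  have hsum2 : ∑ x ∈ t, (C x).card ≤ N.card + t.card := by
    rw [← Finset.card_biUnion]
    · have : t.biUnion C ⊆ N ∪ t := by
        intro v hv
        rw [Finset.mem_biUnion] at hv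
        obtain ⟨x, hx, hv⟩ := hv
        simp only [C, Finset.mem_filter, Finset.mem_univ, true_and] at hv
        rw [Finset.mem_union]
        by_cases h : r v = v
        · right
          rw [← h, hv]
          exact hx
        · left
          simp [hN, h]
      exact (Finset.card_le_card this).trans (Finset.card_union_le _ _)
    · intro x _ y _ hxy
      simp only [C]
      rw [Function.onFun, Finset.disjoint_left]
      intro v hv hv'
      simp only [Finset.mem_filter, Finset.mem_univ, true_and] at hv hv'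
      exact hxy (hv.symm.trans hv')
  have htpos : 1 ≤ t.card := htne.card_pos
  omega

/-- A sparse set has independent rows for some framework. -/
theorem laman (F : Finset (Sym2 V)) (hF : Sparse F) :
    ∃ p : V → Fin 2 → ℚ, LinearIndependent ℚ (fun e : F => rowE p e) := by
  classical
  have hA : ∀ J ⊆ F, J.Nonempty → J.card + 1 ≤
      finrank ℚ (J.sup c2A : Submodule ℚ (V × Fin 2 → ℚ)) := by
    intro J hJ hne
    apply c2_count J _ hne _ (fun e he => Finset.le_sup (f := c2A) he)
    refine ⟨fun e he => hF.1 e (hJ he), fun X hX => ?_⟩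
    have h1 := hF.2 X hX
    have h2 := Finset.card_le_card (Finset.inter_subset_inter_right (u := X.sym2) hJ)
    omega
  have hne : ∀ e ∈ F, (Quot.out e).1 ≠ (Quot.out e).2 := by
    intro e he h
    apply hF.1 e he
    rw [← out_mk e]
    exact h
  obtain ⟨h, y, hy, hli, hv⟩ := dilworth c2A F hA
    (F.image (fun e => c2d 0 (Quot.out e).1 (Quot.out e).2)) (by
      intro v hv
      obtain ⟨e, he, rfl⟩ := Finset.mem_image.1 hv
      intro h0
      have := congrFun h0 ((Quot.out e).1, 0)
      simp [c2d, Pi.single_apply, hne e he] at this)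
  refine ⟨fun v i => if i = 0 then h (Pi.single (v, 1) 1) else - h (Pi.single (v, 0) 1), ?_⟩
  set p : V → Fin 2 → ℚ :=
    fun v i => if i = 0 then h (Pi.single (v, 1) 1) else - h (Pi.single (v, 0) 1) with hp
  have hrow : ∀ e, rowE p e = h (c2d 1 (Quot.out e).1 (Quot.out e).2) •
      c2d 0 (Quot.out e).1 (Quot.out e).2 - h (c2d 0 (Quot.out e).1 (Quot.out e).2) •
      c2d 1 (Quot.out e).1 (Quot.out e).2 := by
    intro e
    funext ⟨v, i⟩
    simp only [rowE, row, hp, c2d, map_sub, Pi.sub_apply, Pi.smul_apply, Pi.single_apply,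
      smul_eq_mul, Prod.mk.injEq]
    fin_cases i
    · simp
    · simp; ring
  have hc : ∀ e ∈ F, ∃ c : ℚ, y e = c • rowE p e := by
    intro e he
    have h1 := (hy e he).1
    have h2 := (hy e he).2
    have h3 : h (c2d 0 (Quot.out e).1 (Quot.out e).2) ≠ 0 :=
      hv _ (Finset.mem_image_of_mem _ he)
    rw [c2A, Submodule.mem_span_pair] at h1
    obtain ⟨α, β, hαβ⟩ := h1
    rw [← hαβ, map_add, map_smul, map_smul, smul_eq_mul, smul_eq_mul] at h2
    refine ⟨-(β / h (c2d 0 (Quot.out e).1 (Quot.out e).2)), ?_⟩
    rw [hrow, ← hαβ, smul_sub, smul_smul, smul_smul]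
    have h4 : α = -(β / h (c2d 0 (Quot.out e).1 (Quot.out e).2)) *
        h (c2d 1 (Quot.out e).1 (Quot.out e).2) := by
      field_simp
      linarith
    have h5 : β = (β / h (c2d 0 (Quot.out e).1 (Quot.out e).2)) *
        h (c2d 0 (Quot.out e).1 (Quot.out e).2) := by
      field_simp
    rw [← h4, neg_mul, ← h5, neg_smul, sub_neg_eq_add]
  choose! c hc using hc
  have hcne : ∀ e : F, c e ≠ 0 := by
    intro e h0
    apply hli.ne_zero e
    rw [hc e.1 e.2, h0, zero_smul]
  rw [Fintype.linearIndependent_iff] at hli ⊢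
  intro g hg e
  have := hli (fun e => g e / c e) (by
    rw [← hg]
    apply Finset.sum_congr rfl
    intro e _
    rw [hc e.1 e.2, smul_smul, div_mul_cancel₀ _ (hcne e)]) e
  rcases div_eq_zero_iff.1 this with h | h
  · exact h
  · exact absurd h (hcne e)

end Pool.Agent.Helper36.Pin
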