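import Pool.Agent.Helper36.Pin.Defs3
import Pool.Agent.Helper36.Pin.H
import Pool.Agent.Helper14.Pin.QA

/-!
# PQ-B: the structure of the core of the rigidity matroid of a graph
-/

namespace Pool.Agent.Helper36.Pin

open Finset Module

variable {V : Type} [Fintype V] [DecidableEq V]

theorem comps_blocks (G : SimpleGraph V) : Comps (core G) (blocks G) := by
  classical
  obtain ⟨𝒳, h𝒳⟩ := exists_comps (core G)
  have hR : ∀ X ∈ 𝒳, RigidIn (core G) X := fun X hX => ⟨h𝒳.two_le X hX, h𝒳.rigid X hX⟩
  have hsub : ∀ X ∈ 𝒳, ∀ X' ∈ 𝒳, X ⊆ X' → X = X' := by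
    intro X hX X' hX' h
    by_contra hne
    have h1 := h𝒳.inter X hX X' hX' hne
    rw [inter_eq_left.2 h] at h1
    have := h𝒳.two_le X hX
    omega
  have heq : 𝒳 = blocks G := by
    ext X
    simp only [blocks, mem_filter, mem_univ, true_and]
    constructor
    · intro hX
      refine ⟨hR X hX, fun Y hY hXY => ?_⟩
      obtain ⟨X', hX', hYX'⟩ := h𝒳.maximal Y hY.1 hY.2.ge
      have := hsub X hX X' hX' (hXY.trans hYX')
      rw [this]
      exact hYX'
    · intro hX
      obtain ⟨X', hX', hXX'⟩ := h𝒳.maximal X hX.1.1 hX.1.2.ge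
      have h1 : X' ≤ X := hX.2 (hR X' hX') hXX'
      have h2 : X = X' := subset_antisymm hXX' h1
      rw [h2]
      exact hX'
  rw [← heq]
  exact h𝒳

theorem coloops_subset (G : SimpleGraph V) : coloops G ⊆ edges G := by
  unfold coloops
  exact filter_subset _ _

theorem core_subset (G : SimpleGraph V) : core G ⊆ edges G := by
  unfold core
  exact sdiff_subset

theorem edges_not_diag {G : SimpleGraph V} {e : Sym2 V} (he : e ∈ edges G) : ¬ e.IsDiag :=
  G.not_isDiag_of_mem_edgeSet (mem_edges.1 he)

theorem rk_edges_sdiff (G : SimpleGraph V) (B : Finset (Sym2 V)) (hB : B ⊆ coloops G) :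
    rk (edges G \ B) + B.card ≤ rk (edges G) := by
  classical
  induction B using Finset.induction_on with
  | empty => simp
  | insert e B he ih =>
    have h1 := ih ((subset_insert e B).trans hB)
    have heC : e ∈ coloops G := hB (mem_insert_self e B)
    have heE : e ∈ edges G := coloops_subset G heC
    have h2 : rk ((edges G).erase e) < rk (edges G) := by
      unfold coloops at heC
      exact (mem_filter.1 heC).2
    have h3 := rk_submod ((edges G).erase e) (edges G \ B)
    have h4 : (edges G).erase e ∪ (edges G \ B) = edges G := by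
      ext f
      simp only [mem_union, mem_erase, mem_sdiff]
      constructor
      · rintro (h | h)
        · exact h.2
        · exact h.1
      · intro h
        by_cases hf : f = e
        · subst hf
          exact Or.inr ⟨h, he⟩
        · exact Or.inl ⟨hf, h⟩
    have h5 : (edges G).erase e ∩ (edges G \ B) = edges G \ insert e B := by
      ext f
      simp only [mem_inter, mem_erase, mem_sdiff, mem_insert]
      tauto
    rw [h4, h5] at h3
    rw [card_insert_of_notMem he]
    omega

theorem rk_edges (G : SimpleGraph V) : rk (edges G) = (coloops G).card + rk (core G) := by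
  classical
  apply le_antisymm
  · have h1 : edges G = coloops G ∪ core G := by
      unfold core
      rw [union_sdiff_of_subset (coloops_subset G)]
    have h2 := rk_union_le (coloops G) (core G)
    rw [← h1] at h2
    have h3 := rk_le_card (coloops G)
    omega
  · have := rk_edges_sdiff G (coloops G) Subset.rfl
    have h1 : edges G \ coloops G = core G := by
      unfold core
      rfl
    rw [h1] at this
    omega

/-- no edge of the core is a coloop of the core -/
theorem rk_core_erase (G : SimpleGraph V) (e : Sym2 V) : rk ((core G).erase e) = rk (core G) := by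
  classical
  by_cases he : e ∈ core G
  · apply le_antisymm (rk_mono (erase_subset _ _))
    have h0 : e ∈ edges G ∧ e ∉ coloops G := by
      unfold core at he
      exact mem_sdiff.1 he
    have h1 : ¬ rk ((edges G).erase e) < rk (edges G) := by
      intro h
      apply h0.2
      unfold coloops
      exact mem_filter.2 ⟨h0.1, h⟩
    have h2 : (edges G).erase e ⊆ coloops G ∪ (core G).erase e := by
      intro f hf
      rw [mem_erase] at hf
      rw [mem_union]
      by_cases hfc : f ∈ coloops G
      · exact Or.inl hfc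
      · refine Or.inr (mem_erase.2 ⟨hf.1, ?_⟩)
        unfold core
        exact mem_sdiff.2 ⟨hf.2, hfc⟩
    have h3 := rk_mono h2
    have h4 := rk_union_le (coloops G) ((core G).erase e)
    have h5 := rk_le_card (coloops G)
    have h6 := rk_edges G
    omega
  · rw [erase_eq_of_notMem he]

theorem core_not_diag (G : SimpleGraph V) : ∀ e ∈ core G, ¬ e.IsDiag :=
  fun _ he => edges_not_diag (core_subset G he)

theorem rk_core_erase_le {G : SimpleGraph V} {X : Finset V} (hX : X ∈ blocks G) (e : Sym2 V) :
    2 * X.card ≤ rk ((core G ∩ X.sym2).erase e) + 3 := by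
  classical
  have h1 := (comps_blocks G).rk_sdiff_le (core_not_diag G) hX
  have h2 : (core G).erase e ⊆ (core G \ X.sym2) ∪ (core G ∩ X.sym2).erase e := by
    intro f hf
    rw [mem_erase] at hf
    rw [mem_union, mem_sdiff, mem_erase, mem_inter]
    by_cases h : f ∈ X.sym2
    · exact Or.inr ⟨hf.1, hf.2, h⟩
    · exact Or.inl ⟨hf.2, h⟩
  have h3 := rk_mono h2
  have h4 := rk_union_le (core G \ X.sym2) ((core G ∩ X.sym2).erase e)
  rw [rk_core_erase] at h3
  have h5 := (comps_blocks G).two_le X hX
  omega

theorem block_redundant {G : SimpleGraph V} {X : Finset V} (hX : X ∈ blocks G) (e : Sym2 V) :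
    rk ((core G ∩ X.sym2).erase e) + 3 = 2 * X.card := by
  classical
  apply le_antisymm
  · exact rk_inside_le _ X ((comps_blocks G).two_le X hX)
      ((erase_subset _ _).trans inter_subset_right)
  · exact rk_core_erase_le hX e

theorem block_card {G : SimpleGraph V} {X : Finset V} (hX : X ∈ blocks G) : 4 ≤ X.card := by
  classical
  by_contra hlt
  have h2 := (comps_blocks G).two_le X hX
  have hr := (comps_blocks G).rigid X hX
  have hne : (core G ∩ X.sym2).Nonempty := by
    rw [nonempty_iff_ne_empty]
    intro h0
    rw [h0, rk_empty] at hr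
    omega
  obtain ⟨e, he⟩ := hne
  have h7 : (core G ∩ X.sym2).card ≤ X.card.choose 2 :=
    card_inside_le _ _ (fun e he => core_not_diag G e (mem_inter.1 he).1) inter_subset_right
  have h8 := rk_le_card ((core G ∩ X.sym2).erase e)
  have h9 : ((core G ∩ X.sym2).erase e).card + 1 = (core G ∩ X.sym2).card :=
    card_erase_add_one he
  have h10 := block_redundant hX e
  have h11 : X.card.choose 2 = 2 * X.card - 3 := by
    have : X.card = 2 ∨ X.card = 3 := by omega
    rcases this with h | h <;> rw [h] <;> decide
  omega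

theorem mem_star_mk {Y S : Finset V} {u v : V} :
    s(u, v) ∈ star Y S ↔ (u ∈ Y ∧ v ∈ Y) ∧ u ≠ v ∧ (u ∈ S ∨ v ∈ S) := by
  unfold star
  rw [mem_filter, mk_mem_sym2]
  have h1 : (∃ w ∈ S, w ∈ s(u, v)) ↔ (u ∈ S ∨ v ∈ S) := by
    simp only [Sym2.mem_iff]
    constructor
    · rintro ⟨x, hx, rfl | rfl⟩
      · exact Or.inl hx
      · exact Or.inr hx
    · rintro (hx | hx)
      · exact ⟨u, hx, Or.inl rfl⟩
      · exact ⟨v, hx, Or.inr rfl⟩
  rw [h1, Sym2.mk_isDiag_iff]

theorem star_subset_sym2 (Y S : Finset V) : star Y S ⊆ Y.sym2 := by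
  unfold star
  exact filter_subset _ _

theorem star_mono {Y Y' S S' : Finset V} (h : Y ⊆ Y') (h' : S ⊆ S') : star Y S ⊆ star Y' S' := by
  intro e
  induction e using Sym2.ind with
  | _ u v =>
    rw [mem_star_mk, mem_star_mk]
    rintro ⟨⟨h1, h2⟩, h3, h4⟩
    exact ⟨⟨h h1, h h2⟩, h3, h4.imp (fun x => h' x) (fun x => h' x)⟩

theorem rk_parts (G : SimpleGraph V) (B : Finset (Sym2 V)) (hB : B ⊆ coloops G)
    (Y : Finset V → Finset V) (hY : ∀ X ∈ blocks G, Y X ⊆ X) (S : Finset V) :
    rk (B ∪ (blocks G).biUnion (fun X => star (Y X) S)) =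
      B.card + ∑ X ∈ blocks G, rho (Y X).card (S ∩ Y X).card := by
  classical
  let I : Finset (Sym2 V ⊕ Finset V) := (coloops G).disjSum (blocks G)
  let A : Sym2 V ⊕ Finset V → Finset (Sym2 V) := Sum.elim (fun e => {e}) (fun X => star X univ)
  let C : Sym2 V ⊕ Finset V → Finset (Sym2 V) :=
    Sum.elim (fun e => if e ∈ B then {e} else ∅) (fun X => star (Y X) S)
  have hcomps := comps_blocks G
  have hCA : ∀ i ∈ I, C i ⊆ A i := by
    rintro (e | X) hi
    · simp only [C, A, Sum.elim_inl]
      split_ifs
      · exact Subset.rfl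
      · exact empty_subset _
    · simp only [C, A, Sum.elim_inr]
      exact star_mono (hY X (by simpa [I] using hi)) (subset_univ _)
  have hsum : ∑ i ∈ I, rk (A i) ≤ rk (I.biUnion A) := by
    have h1 : ∑ i ∈ I, rk (A i) ≤ rk (edges G) := by
      rw [rk_edges, ← hcomps.sum]
      simp only [I, A, sum_disjSum, Sum.elim_inl, Sum.elim_inr]
      apply add_le_add
      · rw [card_eq_sum_ones]
        apply sum_le_sum
        intro e _
        have := rk_le_card ({e} : Finset (Sym2 V))
        simpa using this
      · apply sum_le_sum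
        intro X hX
        have := rk_inside_le (star X univ) X (hcomps.two_le X hX) (star_subset_sym2 X univ)
        omega
    refine h1.trans (rk_mono ?_)
    intro e he
    rw [mem_biUnion]
    by_cases hc : e ∈ coloops G
    · exact ⟨Sum.inl e, by simp [I, hc], by simp [A]⟩
    · have hcore : e ∈ core G := by
        unfold core
        exact mem_sdiff.2 ⟨he, hc⟩
      obtain ⟨X, hX, heX⟩ := hcomps.cover e hcore (core_not_diag G e hcore)
      refine ⟨Sum.inr X, by simp [I, hX], ?_⟩
      simp only [A, Sum.elim_inr]
      have hd := core_not_diag G e hcore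
      induction e using Sym2.ind with
      | _ u v =>
        rw [mem_star_mk]
        rw [mk_mem_sym2] at heX
        exact ⟨heX, by simpa using hd, Or.inl (mem_univ u)⟩
  have key := rk_direct I A C hCA hsum
  have h1 : I.biUnion C = B ∪ (blocks G).biUnion (fun X => star (Y X) S) := by
    ext e
    simp only [mem_biUnion, mem_union]
    constructor
    · rintro ⟨i, hi, he⟩
      rcases i with f | X
      · simp only [C, Sum.elim_inl] at he
        split_ifs at he with hf
        · rw [mem_singleton] at he
          exact Or.inl (he ▸ hf)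
        · exact absurd he (notMem_empty e)
      · refine Or.inr ⟨X, by simpa [I] using hi, he⟩
    · rintro (he | ⟨X, hX, he⟩)
      · exact ⟨Sum.inl e, by simp [I, hB he], by simp [C, he]⟩
      · exact ⟨Sum.inr X, by simp [I, hX], he⟩
  have h2 : ∑ i ∈ I, rk (C i) = B.card + ∑ X ∈ blocks G, rho (Y X).card (S ∩ Y X).card := by
    simp only [I, C, sum_disjSum, Sum.elim_inl, Sum.elim_inr, rk_star]
    congr 1
    have h3 : ∀ e ∈ coloops G, rk (if e ∈ B then ({e} : Finset (Sym2 V)) else ∅) =
        if e ∈ B then 1 else 0 := by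
      intro e he
      split_ifs
      · have hd := edges_not_diag (coloops_subset G he)
        clear he
        induction e using Sym2.ind with
        | _ u v => exact rk_singleton (by simpa using hd)
      · exact rk_empty
    rw [sum_congr rfl h3, sum_boole, filter_mem_eq_inter, inter_eq_right.2 hB]
    simp
  rw [← h1, key, h2]

theorem inc_fill (G : SimpleGraph V) (S : Finset V) :
    inc (fill G) S = (coloops G ∩ inc G S) ∪ (blocks G).biUnion (fun X => star X S) := by
  classical
  ext e
  induction e using Sym2.ind with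
  | _ u v =>
    rw [mem_union, mem_inter, mem_biUnion, mem_inc_mk, mem_inc_mk]
    constructor
    · rintro ⟨hadj, hS⟩
      rcases hadj with hadj | ⟨hne, X, hX, hu, hv⟩
      · by_cases hc : s(u, v) ∈ coloops G
        · exact Or.inl ⟨hc, hadj, hS⟩
        · right
          have hcore : s(u, v) ∈ core G := by
            unfold core
            exact mem_sdiff.2 ⟨mem_edges_mk.2 hadj, hc⟩
          obtain ⟨X, hX, heX⟩ := (comps_blocks G).cover _ hcore (core_not_diag G _ hcore)
          exact ⟨X, hX, mem_star_mk.2 ⟨mk_mem_sym2.1 heX, hadj.ne, hS⟩⟩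
      · exact Or.inr ⟨X, hX, mem_star_mk.2 ⟨⟨hu, hv⟩, hne, hS⟩⟩
    · rintro (⟨_, hadj, hS⟩ | ⟨X, hX, he⟩)
      · exact ⟨Or.inl hadj, hS⟩
      · rw [mem_star_mk] at he
        exact ⟨Or.inr ⟨he.2.1, X, hX, he.1.1, he.1.2⟩, he.2.2⟩

theorem rk_inc_fill (G : SimpleGraph V) (S : Finset V) :
    rk (inc (fill G) S) =
      (coloops G ∩ inc G S).card + ∑ X ∈ blocks G, rho X.card (S ∩ X).card := by
  classical
  rw [inc_fill]
  exact rk_parts G (coloops G ∩ inc G S) inter_subset_left id (fun _ _ => Subset.rfl) S

end Pool.Agent.Helper36.Pin
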