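import Pool.Agent.Helper36.Pin.Defs2

/-!
# PN-C1: the rows of a framework have rank at most the Laman rank
-/

namespace Pool.Agent.Helper36.Pin

open Finset Module

variable {V : Type} [Fintype V] [DecidableEq V]

theorem row_comm (p : V → Fin 2 → ℚ) (v w : V) : row p v w = row p w v := by
  funext u
  unfold row
  ring

theorem rowE_mk (p : V → Fin 2 → ℚ) (v w : V) : rowE p s(v, w) = row p v w := by
  unfold rowE
  have h : s((Quot.out s(v, w)).1, (Quot.out s(v, w)).2) = s(v, w) := Quot.out_eq _
  rcases Sym2.eq_iff.1 h with ⟨h1, h2⟩ | ⟨h1, h2⟩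
  · rw [h1, h2]
  · rw [h1, h2]; exact row_comm p w v

/-- the three relations satisfied by all rows (translations and the rotation) -/
private noncomputable def c1L (p : V → Fin 2 → ℚ) (X : Finset V) :
    (X × Fin 2 → ℚ) →ₗ[ℚ] (ℚ × ℚ × ℚ) where
  toFun x := (∑ u : X, x (u, 0), ∑ u : X, x (u, 1),
    ∑ u : X, (p u 0 * x (u, 1) - p u 1 * x (u, 0)))
  map_add' x y := by
    simp only [Pi.add_apply, Finset.sum_add_distrib, Prod.mk_add_mk, Prod.mk.injEq, true_and]
    rw [← Finset.sum_add_distrib]
    apply Finset.sum_congr rfl
    intros; ring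
  map_smul' c x := by
    simp only [Pi.smul_apply, smul_eq_mul, RingHom.id_apply, Prod.smul_mk, Finset.mul_sum,
      Prod.mk.injEq, true_and]
    apply Finset.sum_congr rfl
    intros; ring

private lemma c1L_surj (p : V → Fin 2 → ℚ) (X : Finset V) (a b : V) (ha : a ∈ X) (hb : b ∈ X)
    (hab : p a ≠ p b) : Function.Surjective (c1L p X) := by
  classical
  have hne : a ≠ b := fun h => hab (by rw [h])
  have key : ∀ (c : V) (hc : c ∈ X) (i : Fin 2) (t : ℚ),
      c1L p X (Pi.single (⟨c, hc⟩, i) t) =
        if i = 0 then (t, 0, - (p c 1 * t)) else (0, t, p c 0 * t) := by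
    intro c hc i t
    fin_cases i
    · simp only [c1L, LinearMap.coe_mk, AddHom.coe_mk]
      simp [Pi.single_apply, Finset.sum_ite_eq', Finset.sum_ite_eq, mul_ite]
    · simp only [c1L, LinearMap.coe_mk, AddHom.coe_mk]
      simp [Pi.single_apply, Finset.sum_ite_eq', Finset.sum_ite_eq, mul_ite]
  intro ⟨x, y, z⟩
  by_cases h0 : p a 0 = p b 0
  · have h1 : p a 1 - p b 1 ≠ 0 := by
      intro h1
      apply hab
      funext i
      fin_cases i
      · exact h0
      · simpa using sub_eq_zero.1 h1
    set t := (-(z - p a 0 * y + p a 1 * x)) / (p a 1 - p b 1) with ht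
    refine ⟨Pi.single (⟨a, ha⟩, 0) x + Pi.single (⟨a, ha⟩, 1) y + Pi.single (⟨a, ha⟩, 0) t
      - Pi.single (⟨b, hb⟩, 0) t, ?_⟩
    rw [map_sub, map_add, map_add, key, key, key, key]
    simp only [if_true, one_ne_zero, if_false]
    have h2 : t * (p a 1 - p b 1) = -(z - p a 0 * y + p a 1 * x) := by
      rw [ht]; field_simp
    ext
    · simp
    · simp
    · simp
      linarith
  · have h1 : p a 0 - p b 0 ≠ 0 := sub_ne_zero.2 h0
    set t := (z - p a 0 * y + p a 1 * x) / (p a 0 - p b 0) with ht
    refine ⟨Pi.single (⟨a, ha⟩, 0) x + Pi.single (⟨a, ha⟩, 1) y + Pi.single (⟨a, ha⟩, 1) t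
      - Pi.single (⟨b, hb⟩, 1) t, ?_⟩
    rw [map_sub, map_add, map_add, key, key, key, key]
    simp only [if_true, one_ne_zero, if_false]
    have h2 : t * (p a 0 - p b 0) = (z - p a 0 * y + p a 1 * x) := by
      rw [ht]; field_simp
    ext
    · simp
    · simp
    · simp
      linarith

/-- independent rows are indexed by a sparse set -/
theorem sparse_of_linearIndepOn (p : V → Fin 2 → ℚ) (I : Finset (Sym2 V))
    (h : LinearIndepOn ℚ (rowE p) (I : Set (Sym2 V))) : Sparse I := by
  classical
  have hnz : ∀ e ∈ I, rowE p e ≠ 0 := fun e he => LinearIndepOn.ne_zero h he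
  refine ⟨?_, ?_⟩
  · intro e he hd
    apply hnz e he
    induction e using Sym2.ind with
    | _ u v =>
      rw [rowE_mk]
      have : u = v := hd
      subst this
      funext x
      simp [row]
  · intro X hX
    by_cases hp : ∀ a ∈ X, ∀ b ∈ X, p a = p b
    · have : I ∩ X.sym2 = ∅ := by
        rw [Finset.eq_empty_iff_forall_notMem]
        intro e he
        rw [Finset.mem_inter] at he
        apply hnz e he.1
        have h2 := he.2
        induction e using Sym2.ind with
        | _ u v =>
          rw [mk_mem_sym2] at h2
          rw [rowE_mk]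
          funext x
          simp [row, hp u h2.1 v h2.2]
      rw [this]
      simp; omega
    · push Not at hp
      obtain ⟨a, ha, b, hb, hab⟩ := hp
      have hs := c1L_surj p X a b ha hb hab
      -- the restricted rows
      let R : (V × Fin 2 → ℚ) →ₗ[ℚ] (X × Fin 2 → ℚ) :=
        LinearMap.funLeft ℚ ℚ (fun u : X × Fin 2 => ((u.1 : V), u.2))
      set J := I ∩ X.sym2 with hJ
      have hJI : ∀ e ∈ J, e ∈ I := fun e he => (Finset.mem_inter.1 he).1
      have hJX : ∀ e ∈ J, e ∈ X.sym2 := fun e he => (Finset.mem_inter.1 he).2
      have hli : LinearIndependent ℚ (fun e : J => rowE p e) :=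
        LinearIndependent.comp h (fun e : J => (⟨e.1, hJI e.1 e.2⟩ : (I : Set (Sym2 V))))
          (fun x y hxy => by
            have h1 : (x : Sym2 V) = y := congrArg
              (fun z : (I : Set (Sym2 V)) => (z : Sym2 V)) hxy
            exact Subtype.ext h1)
      have hsupp : ∀ e ∈ J, ∀ v i, v ∉ X → rowE p e (v, i) = 0 := by
        intro e he v i hv
        have h2 := hJX e he
        clear he
        induction e using Sym2.ind with
        | _ u w =>
          rw [mk_mem_sym2] at h2
          rw [rowE_mk]
          have h3 : v ≠ u := fun h => hv (h ▸ h2.1)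
          have h4 : v ≠ w := fun h => hv (h ▸ h2.2)
          simp [row, h3, h4]
      have hRli : LinearIndependent ℚ (fun e : J => R (rowE p e)) := by
        rw [Fintype.linearIndependent_iff] at hli ⊢
        intro g hg
        apply hli g
        funext ⟨v, i⟩
        by_cases hv : v ∈ X
        · have := congrFun hg (⟨v, hv⟩, i)
          simpa [R, Finset.sum_apply, LinearMap.funLeft_apply] using this
        · rw [Finset.sum_apply]
          apply Finset.sum_eq_zero
          intro e _
          rw [Pi.smul_apply, hsupp e.1 e.2 v i hv, smul_zero]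
      have hker : ∀ e : J, R (rowE p e) ∈ LinearMap.ker (c1L p X) := by
        rintro ⟨e, he⟩
        have h2 := hJX e he
        show R (rowE p e) ∈ LinearMap.ker (c1L p X)
        rw [LinearMap.mem_ker]
        clear he
        induction e using Sym2.ind with
        | _ u w =>
          rw [mk_mem_sym2] at h2
          simp only [rowE_mk, c1L, LinearMap.coe_mk, AddHom.coe_mk, R, LinearMap.funLeft_apply, row]
          have e1 : ∀ (f : V → ℚ) (c : V) (hc : c ∈ X),
              ∑ x : X, f x * (if (x : V) = c then 1 else 0) = f c := by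
            intro f c hc
            rw [Finset.sum_coe_sort X (fun x => f x * (if x = c then 1 else 0))]
            simp [hc]
          have e2 : ∀ t : ℚ, ∑ x : X, t * ((if (x : V) = u then 1 else 0) -
              (if (x : V) = w then 1 else 0)) = 0 := by
            intro t
            simp only [mul_sub]
            rw [Finset.sum_sub_distrib, e1 (fun _ => t) u h2.1, e1 (fun _ => t) w h2.2, sub_self]
          rw [e2, e2]
          have e3 : ∑ x : X, (p x 0 * ((p u 1 - p w 1) * ((if (x : V) = u then 1 else 0) -
              (if (x : V) = w then 1 else 0))) - p x 1 * ((p u 0 - p w 0) *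
              ((if (x : V) = u then 1 else 0) - (if (x : V) = w then 1 else 0)))) = 0 := by
            have : ∀ x : X, (p x 0 * ((p u 1 - p w 1) * ((if (x : V) = u then 1 else 0) -
              (if (x : V) = w then 1 else 0))) - p x 1 * ((p u 0 - p w 0) *
              ((if (x : V) = u then 1 else 0) - (if (x : V) = w then 1 else 0)))) =
              (p x 0 * (p u 1 - p w 1) - p x 1 * (p u 0 - p w 0)) *
                (if (x : V) = u then 1 else 0) -
              (p x 0 * (p u 1 - p w 1) - p x 1 * (p u 0 - p w 0)) *
                (if (x : V) = w then 1 else 0) := fun x => by ring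
            rw [Finset.sum_congr rfl (fun x _ => this x), Finset.sum_sub_distrib,
              e1 (fun x => p x 0 * (p u 1 - p w 1) - p x 1 * (p u 0 - p w 0)) u h2.1,
              e1 (fun x => p x 0 * (p u 1 - p w 1) - p x 1 * (p u 0 - p w 0)) w h2.2]
            ring
          rw [e3]
          rfl
      have hcard : Fintype.card J ≤ finrank ℚ (LinearMap.ker (c1L p X)) := by
        have hk : LinearIndependent ℚ
            (fun e : J => (⟨R (rowE p e), hker e⟩ : LinearMap.ker (c1L p X))) := by
          apply LinearIndependent.of_comp (LinearMap.ker (c1L p X)).subtype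
          exact hRli
        exact hk.fintype_card_le_finrank
      have hrn := LinearMap.finrank_range_add_finrank_ker (c1L p X)
      rw [LinearMap.range_eq_top.2 hs, finrank_top, Module.finrank_prod, Module.finrank_prod,
        Module.finrank_self, Module.finrank_pi] at hrn
      simp only [Fintype.card_prod, Fintype.card_coe, Fintype.card_fin] at hrn hcard
      omega

/-- For every framework the rank of the rows of `F` is at most `rk F`. -/
theorem finrank_rows_le (p : V → Fin 2 → ℚ) (F : Finset (Sym2 V)) :
    finrank ℚ (Submodule.span ℚ (rowE p '' (F : Set (Sym2 V)))) ≤ rk F := by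
  classical
  obtain ⟨b, hbF, -, hspan, hli⟩ := exists_linearIndepOn_extension
    (linearIndepOn_empty ℚ (rowE p)) (Set.empty_subset (F : Set (Sym2 V)))
  have hbfin : b.Finite := F.finite_toSet.subset hbF
  obtain ⟨I, rfl⟩ := hbfin.exists_finset_coe
  have hs : Sparse I := sparse_of_linearIndepOn p I hli
  have hIF : I ⊆ F := by exact_mod_cast hbF
  have h1 : Submodule.span ℚ (rowE p '' (F : Set (Sym2 V))) =
      Submodule.span ℚ (rowE p '' (I : Set (Sym2 V))) := by
    apply le_antisymm
    · rw [Submodule.span_le]; exact hspan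
    · exact Submodule.span_mono (Set.image_mono hbF)
  rw [h1]
  have h2 : finrank ℚ (Submodule.span ℚ (rowE p '' (I : Set (Sym2 V)))) ≤ I.card := by
    rw [← Finset.coe_image]
    exact (finrank_span_finset_le_card _).trans Finset.card_image_le
  refine h2.trans ?_
  unfold rk
  apply Finset.le_sup (f := Finset.card)
  simp [hIF, hs]

end Pool.Agent.Helper36.Pin
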